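import Mathlib

/-!
# MP_6b5565_lc: structure-free geometry for the shortest balanced track

* `straight`, `straight_side`: first variation at a point that slides on a line;
* `pushOff`: a path through the apex of a fan of total angle less than `π` can be shortened by crossing
  the rays of the fan near the apex;
* `twoOpt`, `twoOpt_le`: exchange of two segments with a common point;
* `corner_mul_sin`, `corner_dist`, `slide`: sliding a segment that cuts off a corner.
-/

set_option autoImplicit false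
set_option linter.unusedSectionVars false

open scoped Real
open InnerProductGeometry

namespace Pool.Agent.QGeo

variable {E : Type*} [NormedAddCommGroup E] [InnerProductSpace ℝ E]

/-! ### First variation -/

/-- Derivative of the distance to a point along a line. -/
theorem hasDerivAt_dist_line {y u p : E} (hp : p ≠ y) :
    HasDerivAt (fun t : ℝ => dist p (y + t • u)) (-(inner ℝ u (p - y) / ‖p - y‖)) 0 := by
  have h0 : (fun t : ℝ => dist p (y + t • u)) = fun t : ℝ => ‖(p - y) - t • u‖ := by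
    funext t
    rw [dist_eq_norm]
    congr 1
    abel
  rw [h0]
  have h1 : HasDerivAt (fun t : ℝ => (p - y) - t • u) (-u) 0 := by
    have h2 : HasDerivAt (fun t : ℝ => t • u) ((1 : ℝ) • u) 0 :=
      (hasDerivAt_id (0 : ℝ)).smul_const u
    simpa using h2.const_sub (p - y)
  have hne : (p - y) - (0 : ℝ) • u ≠ 0 := by
    simpa [sub_eq_zero] using hp
  have h3 := h1.norm_sq
  have h4 : HasDerivAt (fun t : ℝ => Real.sqrt (‖(p - y) - t • u‖ ^ 2))
      ((2 * inner ℝ ((p - y) - (0 : ℝ) • u) (-u)) / (2 * Real.sqrt (‖(p - y) - (0 : ℝ) • u‖ ^ 2))) 0 :=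
    h3.sqrt (by positivity)
  have h5 : (fun t : ℝ => Real.sqrt (‖(p - y) - t • u‖ ^ 2)) = fun t : ℝ => ‖(p - y) - t • u‖ := by
    funext t
    exact Real.sqrt_sq (norm_nonneg _)
  rw [h5, Real.sqrt_sq (norm_nonneg _)] at h4
  convert h4 using 1
  simp only [zero_smul, sub_zero, inner_neg_right, real_inner_comm]
  rw [mul_div_mul_left _ _ (two_ne_zero), neg_div]

/-- First variation, two sides: at a minimum the path is straight. -/
theorem straight {y u p q : E} (hp : p ≠ y) (hq : q ≠ y) (hu : u ≠ 0)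
    (hmin : IsLocalMin (fun t : ℝ => dist p (y + t • u) + dist (y + t • u) q) 0) :
    angle u (p - y) + angle u (q - y) = π := by
  have h1 := hasDerivAt_dist_line (u := u) hp
  have h2 := hasDerivAt_dist_line (u := u) hq
  have h3 : HasDerivAt (fun t : ℝ => dist p (y + t • u) + dist (y + t • u) q)
      (-(inner ℝ u (p - y) / ‖p - y‖) + -(inner ℝ u (q - y) / ‖q - y‖)) 0 := by
    have h0 := h1.fun_add h2
    simpa only [dist_comm q] using h0
  have h4 := hmin.hasDerivAt_eq_zero h3
  have hu' : 0 < ‖u‖ := norm_pos_iff.2 hu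
  have h5 : Real.cos (angle u (p - y)) = - Real.cos (angle u (q - y)) := by
    rw [cos_angle, cos_angle]
    have h6 : inner ℝ u (p - y) / ‖p - y‖ = - (inner ℝ u (q - y) / ‖q - y‖) := by linarith
    calc inner ℝ u (p - y) / (‖u‖ * ‖p - y‖) = (inner ℝ u (p - y) / ‖p - y‖) / ‖u‖ := by
          rw [div_div, mul_comm]
      _ = - (inner ℝ u (q - y) / ‖q - y‖) / ‖u‖ := by rw [h6]
      _ = - (inner ℝ u (q - y) / (‖u‖ * ‖q - y‖)) := by
          rw [neg_div, div_div, mul_comm ‖u‖]
  rw [← Real.cos_pi_sub] at h5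
  have h7 := Real.injOn_cos ⟨angle_nonneg _ _, angle_le_pi _ _⟩
    ⟨sub_nonneg.2 (angle_le_pi u (q - y)), by linarith [angle_nonneg u (q - y)]⟩ h5
  linarith

/-- First variation, one side. -/
theorem straight_side {y u p q : E} (hp : p ≠ y) (hq : q ≠ y) (hu : u ≠ 0) {ε : ℝ} (hε : 0 < ε)
    (hmin : ∀ t : ℝ, 0 < t → t < ε → dist p y + dist y q ≤ dist p (y + t • u) + dist (y + t • u) q) :
    π ≤ angle u (p - y) + angle u (q - y) := by
  have h1 := hasDerivAt_dist_line (u := u) hp
  have h2 := hasDerivAt_dist_line (u := u) hq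
  have h3 : HasDerivAt (fun t : ℝ => dist p (y + t • u) + dist (y + t • u) q)
      (-(inner ℝ u (p - y) / ‖p - y‖) + -(inner ℝ u (q - y) / ‖q - y‖)) 0 := by
    have h0 := h1.fun_add h2
    simpa only [dist_comm q] using h0
  have hu' : 0 < ‖u‖ := norm_pos_iff.2 hu
  have h4 : 0 ≤ -(inner ℝ u (p - y) / ‖p - y‖) + -(inner ℝ u (q - y) / ‖q - y‖) := by
    have h6 := hasDerivWithinAt_iff_tendsto_slope.1 (h3.hasDerivWithinAt (s := Set.Ioi (0 : ℝ)))
    have h6' : Filter.Tendsto (slope (fun t : ℝ => dist p (y + t • u) + dist (y + t • u) q) 0)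
        (nhdsWithin 0 (Set.Ioi (0 : ℝ)))
        (nhds (-(inner ℝ u (p - y) / ‖p - y‖) + -(inner ℝ u (q - y) / ‖q - y‖))) := by
      refine h6.mono_left (nhdsWithin_mono _ ?_)
      intro t ht
      exact ⟨ht, ne_of_gt ht⟩
    refine ge_of_tendsto h6' ?_
    filter_upwards [Ioo_mem_nhdsGT hε] with t ht
    rw [slope_def_field]
    refine div_nonneg ?_ (by linarith [ht.1])
    have := hmin t ht.1 ht.2
    simp only [zero_smul, add_zero]
    linarith
  have h5 : Real.cos (angle u (p - y)) ≤ Real.cos (π - angle u (q - y)) := by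
    rw [Real.cos_pi_sub, cos_angle, cos_angle]
    have h6 : inner ℝ u (p - y) / ‖p - y‖ ≤ - (inner ℝ u (q - y) / ‖q - y‖) := by linarith
    calc inner ℝ u (p - y) / (‖u‖ * ‖p - y‖) = (inner ℝ u (p - y) / ‖p - y‖) / ‖u‖ := by
          rw [div_div, mul_comm]
      _ ≤ - (inner ℝ u (q - y) / ‖q - y‖) / ‖u‖ := by
          exact div_le_div_of_nonneg_right h6 hu'.le
      _ = - (inner ℝ u (q - y) / (‖u‖ * ‖q - y‖)) := by
          rw [neg_div, div_div, mul_comm ‖u‖]
  have h7 : π - angle u (q - y) ≤ angle u (p - y) := by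
    by_contra hlt
    push Not at hlt
    have := Real.strictAntiOn_cos ⟨angle_nonneg u (p - y), angle_le_pi _ _⟩
      ⟨sub_nonneg.2 (angle_le_pi u (q - y)), by linarith [angle_nonneg u (q - y)]⟩ hlt
    linarith
  linarith

/-! ### Push-off -/

/-- Two points on rays from `z`, on a common line in the unfolded plane. -/
theorem dist_ray (z : E) {u v : E} (hu : ‖u‖ = 1) (hv : ‖v‖ = 1) {φ c : ℝ} (hc : 0 ≤ c)
    (h1 : -(π / 2) < φ) (h2 : φ + angle u v < π / 2) :
    dist (z + (c / Real.cos φ) • u) (z + (c / Real.cos (φ + angle u v)) • v)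
      = c * (Real.tan (φ + angle u v) - Real.tan φ) := by
  have ha := angle_nonneg u v
  have hC : 0 < Real.cos φ := Real.cos_pos_of_mem_Ioo ⟨h1, by linarith⟩
  have hC' : 0 < Real.cos (φ + angle u v) := Real.cos_pos_of_mem_Ioo ⟨by linarith, h2⟩
  have htan : Real.tan φ ≤ Real.tan (φ + angle u v) :=
    Real.strictMonoOn_tan.monotoneOn ⟨h1, by linarith⟩ ⟨by linarith, h2⟩ (by linarith)
  have hin : inner ℝ u v = Real.cos (angle u v) := by
    have := cos_angle u v
    rw [hu, hv] at this
    simpa using this.symm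
  have hcos : Real.cos (angle u v)
      = Real.cos (φ + angle u v) * Real.cos φ + Real.sin (φ + angle u v) * Real.sin φ := by
    rw [← Real.cos_sub]
    congr 1
    ring
  rw [dist_eq_norm]
  have hnn : 0 ≤ c * (Real.tan (φ + angle u v) - Real.tan φ) :=
    mul_nonneg hc (by linarith)
  rw [← Real.sqrt_sq hnn, ← Real.sqrt_sq (norm_nonneg _)]
  congr 1
  have h3 : z + (c / Real.cos φ) • u - (z + (c / Real.cos (φ + angle u v)) • v)
      = (c / Real.cos φ) • u - (c / Real.cos (φ + angle u v)) • v := by abel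
  rw [h3, norm_sub_sq_real, norm_smul, norm_smul, inner_smul_left, inner_smul_right, hu, hv, hin]
  rw [Real.tan_eq_sin_div_cos, Real.tan_eq_sin_div_cos]
  have hS := Real.sin_sq_add_cos_sq φ
  have hS' := Real.sin_sq_add_cos_sq (φ + angle u v)
  generalize Real.cos (φ + angle u v) = C' at *
  generalize Real.sin (φ + angle u v) = S' at *
  rw [hcos]
  generalize Real.cos φ = C at *
  generalize Real.sin φ = S at *
  simp only [mul_one, Real.norm_eq_abs, sq_abs, conj_trivial]
  field_simp
  have e1 : S ^ 2 = 1 - C ^ 2 := by linarith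
  have e2 : S' ^ 2 = 1 - C' ^ 2 := by linarith
  have key : (S' * C - S * C') ^ 2 = C' ^ 2 + C ^ 2 - 2 * C * C' * (C' * C + S' * S) := by
    calc (S' * C - S * C') ^ 2 = S' ^ 2 * C ^ 2 + S ^ 2 * C' ^ 2 - 2 * C * C' * (S * S') := by ring
      _ = (1 - C' ^ 2) * C ^ 2 + (1 - C ^ 2) * C' ^ 2 - 2 * C * C' * (S * S') := by rw [e1, e2]
      _ = C' ^ 2 + C ^ 2 - 2 * C * C' * (C' * C + S' * S) := by ring
  nlinarith [key]

/-- Changing the ends of a path. -/
theorem sum_dist_le {m : ℕ} (hm : 0 < m) (x y : ℕ → E) (h : ∀ i, 0 < i → i < m → x i = y i) :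
    ∑ i ∈ Finset.range m, dist (x i) (x (i + 1))
      ≤ dist (x 0) (y 0) + ∑ i ∈ Finset.range m, dist (y i) (y (i + 1)) + dist (y m) (x m) := by
  classical
  have h1 : ∀ i ∈ Finset.range m, dist (x i) (x (i + 1))
      ≤ dist (y i) (y (i + 1)) + ((if i = 0 then dist (x 0) (y 0) else 0)
        + (if i = m - 1 then dist (y m) (x m) else 0)) := by
    intro i hi
    rw [Finset.mem_range] at hi
    have h2 : dist (x i) (x (i + 1))
        ≤ dist (x i) (y i) + dist (y i) (y (i + 1)) + dist (y (i + 1)) (x (i + 1)) :=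
      dist_triangle4 _ _ _ _
    have h3 : dist (x i) (y i) = if i = 0 then dist (x 0) (y 0) else 0 := by
      split_ifs with hi0
      · rw [hi0]
      · rw [h i (Nat.pos_of_ne_zero hi0) hi, dist_self]
    have h4 : dist (y (i + 1)) (x (i + 1)) = if i = m - 1 then dist (y m) (x m) else 0 := by
      split_ifs with hi0
      · have : i + 1 = m := by omega
        rw [this]
      · rw [h (i + 1) (Nat.succ_pos i) (by omega), dist_self]
    rw [h3, h4] at h2
    linarith
  refine (Finset.sum_le_sum h1).trans (le_of_eq ?_)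
  rw [Finset.sum_add_distrib, Finset.sum_add_distrib, Finset.sum_ite_eq' (Finset.range m) 0,
    Finset.sum_ite_eq' (Finset.range m) (m - 1), if_pos (Finset.mem_range.2 hm),
    if_pos (Finset.mem_range.2 (by omega))]
  ring

/-- Push-off for unit rays. -/
theorem pushOff_unit (z : E) {m : ℕ} (hm : 0 < m) (u : ℕ → E) (hu : ∀ i ≤ m, ‖u i‖ = 1)
    (hA : ∑ i ∈ Finset.range m, angle (u i) (u (i + 1)) < π) {s t ε : ℝ} (hs : 0 < s) (ht : 0 < t)
    (hε : 0 < ε) :
    ∃ r : ℕ → ℝ, (∀ i ≤ m, 0 < r i ∧ r i < ε) ∧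
      ∀ x : ℕ → E, x 0 = z + s • u 0 → x m = z + t • u m →
        (∀ i, 0 < i → i < m → x i = z + r i • u i) →
        ∑ i ∈ Finset.range m, dist (x i) (x (i + 1)) < dist (x 0) z + dist z (x m) := by
  set A : ℝ := ∑ i ∈ Finset.range m, angle (u i) (u (i + 1)) with hAdef
  set θ : ℕ → ℝ := fun i => ∑ j ∈ Finset.range i, angle (u j) (u (j + 1)) with hθ
  have hθs : ∀ i, θ (i + 1) = θ i + angle (u i) (u (i + 1)) := fun i => Finset.sum_range_succ _ _
  have hθ0 : θ 0 = 0 := by simp [hθ]
  have hθm : θ m = A := rfl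
  have hmono : Monotone θ := monotone_nat_of_le_succ fun i => by
    rw [hθs]
    linarith [angle_nonneg (u i) (u (i + 1))]
  have hθnn : ∀ i, 0 ≤ θ i := fun i => hθ0 ▸ hmono (Nat.zero_le i)
  have hθA : ∀ i ≤ m, θ i ≤ A := fun i hi => hθm ▸ hmono hi
  have hA0 : 0 ≤ A := hθm ▸ hθnn m
  set δ : ℝ := min (ε / 2) (min s t) with hδ
  have hδ0 : 0 < δ := lt_min (by linarith) (lt_min hs ht)
  have hδε : δ < ε := lt_of_le_of_lt (min_le_left _ _) (by linarith)
  have hδs : δ ≤ s := (min_le_right _ _).trans (min_le_left _ _)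
  have hδt : δ ≤ t := (min_le_right _ _).trans (min_le_right _ _)
  have hcosA : 0 < Real.cos (A / 2) := Real.cos_pos_of_mem_Ioo ⟨by linarith [Real.pi_pos], by linarith⟩
  set c : ℝ := δ * Real.cos (A / 2) with hc
  have hc0 : 0 < c := mul_pos hδ0 hcosA
  set φ : ℕ → ℝ := fun i => θ i - A / 2 with hφ
  have hφ1 : ∀ i, -(π / 2) < φ i := fun i => by
    simp only [hφ]
    linarith [hθnn i]
  have hφ2 : ∀ i ≤ m, φ i < π / 2 := fun i hi => by
    simp only [hφ]
    linarith [hθA i hi]
  have hφs : ∀ i, φ (i + 1) = φ i + angle (u i) (u (i + 1)) := fun i => by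
    simp only [hφ, hθs]
    ring
  have hcosφ : ∀ i ≤ m, Real.cos (A / 2) ≤ Real.cos (φ i) := by
    intro i hi
    have hb : |φ i| ≤ A / 2 := abs_le.2 ⟨by simp only [hφ]; linarith [hθnn i], by
      simp only [hφ]; linarith [hθA i hi]⟩
    rw [← Real.cos_abs (φ i)]
    exact Real.cos_le_cos_of_nonneg_of_le_pi (abs_nonneg _) (by linarith) hb
  set r : ℕ → ℝ := fun i => c / Real.cos (φ i) with hr
  have hr0 : r 0 = δ := by
    simp only [hr, hφ, hθ0, hc]
    rw [zero_sub, Real.cos_neg, mul_div_assoc, div_self hcosA.ne', mul_one]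
  have hrm : r m = δ := by
    simp only [hr, hφ, hθm, hc]
    rw [show A - A / 2 = A / 2 by ring, mul_div_assoc, div_self hcosA.ne', mul_one]
  refine ⟨r, fun i hi => ?_, fun x hx0 hxm hx => ?_⟩
  · have h1 : 0 < Real.cos (φ i) := lt_of_lt_of_le hcosA (hcosφ i hi)
    refine ⟨div_pos hc0 h1, ?_⟩
    refine lt_of_le_of_lt ?_ hδε
    simp only [hr]
    rw [div_le_iff₀ h1]
    exact mul_le_mul_of_nonneg_left (hcosφ i hi) hδ0.le
  · set y : ℕ → E := fun i => z + r i • u i with hy
    have h1 := sum_dist_le hm x y (fun i h0 h1 => hx i h0 h1)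
    have h2 : ∑ i ∈ Finset.range m, dist (y i) (y (i + 1)) = 2 * δ * Real.sin (A / 2) := by
      have h3 : ∀ i ∈ Finset.range m, dist (y i) (y (i + 1))
          = c * Real.tan (φ (i + 1)) - c * Real.tan (φ i) := by
        intro i hi
        rw [Finset.mem_range] at hi
        simp only [hy, hr, hφs]
        rw [dist_ray z (hu i hi.le) (hu (i + 1) hi) hc0.le (hφ1 i) (by
          rw [← hφs]
          exact hφ2 (i + 1) hi)]
        ring
      rw [Finset.sum_congr rfl h3, Finset.sum_range_sub (fun i => c * Real.tan (φ i))]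
      simp only [hφ, hθm, hθ0, hc]
      rw [show A - A / 2 = A / 2 by ring, zero_sub, Real.tan_neg, Real.tan_eq_sin_div_cos]
      field_simp
      ring
    have h4 : dist (x 0) (y 0) = s - δ := by
      rw [hx0]
      simp only [hy, hr0]
      rw [dist_add_left, dist_eq_norm, ← sub_smul, norm_smul, hu 0 (Nat.zero_le m), mul_one,
        Real.norm_of_nonneg (by linarith)]
    have h5 : dist (y m) (x m) = t - δ := by
      rw [hxm]
      simp only [hy, hrm]
      rw [dist_add_left, dist_comm, dist_eq_norm, ← sub_smul, norm_smul, hu m le_rfl, mul_one,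
        Real.norm_of_nonneg (by linarith)]
    have h6 : dist (x 0) z = s := by
      rw [hx0, dist_eq_norm, add_sub_cancel_left, norm_smul, hu 0 (Nat.zero_le m), mul_one,
        Real.norm_of_nonneg hs.le]
    have h7 : dist z (x m) = t := by
      rw [hxm, dist_comm, dist_eq_norm, add_sub_cancel_left, norm_smul, hu m le_rfl, mul_one,
        Real.norm_of_nonneg ht.le]
    have h8 : Real.sin (A / 2) < 1 := by
      have := Real.sin_sq_add_cos_sq (A / 2)
      nlinarith [hcosA, Real.neg_one_le_sin (A / 2)]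
    rw [h2, h4, h5] at h1
    rw [h6, h7]
    nlinarith

/-- **Push-off.** A path through the apex `z` of a fan of rays `z + r e_i` with total angle less than `π`
can be shortened by crossing the rays of the fan at points arbitrarily close to `z`. -/
theorem pushOff (z : E) {m : ℕ} (hm : 0 < m) (e : ℕ → E) (he : ∀ i ≤ m, e i ≠ 0)
    (hA : ∑ i ∈ Finset.range m, angle (e i) (e (i + 1)) < π) {s t ε : ℝ} (hs : 0 < s) (ht : 0 < t)
    (hε : 0 < ε) :
    ∃ r : ℕ → ℝ, (∀ i ≤ m, 0 < r i ∧ r i < ε) ∧
      ∀ x : ℕ → E, x 0 = z + s • e 0 → x m = z + t • e m →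
        (∀ i, 0 < i → i < m → x i = z + r i • e i) →
        ∑ i ∈ Finset.range m, dist (x i) (x (i + 1)) < dist (x 0) z + dist z (x m) := by
  have hn : ∀ i ≤ m, 0 < ‖e i‖ := fun i hi => norm_pos_iff.2 (he i hi)
  obtain ⟨ρ, hρ0, hρ⟩ : ∃ ρ : ℝ, 0 < ρ ∧ ∀ i ≤ m, ρ ≤ ‖e i‖ := by
    obtain ⟨j, hj, hmin⟩ := Finset.exists_min_image (Finset.range (m + 1)) (fun i => ‖e i‖)
      ⟨0, by simp⟩
    rw [Finset.mem_range] at hj
    exact ⟨‖e j‖, hn j (by omega), fun i hi => hmin i (Finset.mem_range.2 (by omega))⟩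
  set u : ℕ → E := fun i => (‖e i‖⁻¹ : ℝ) • e i with hu
  have hu1 : ∀ i ≤ m, ‖u i‖ = 1 := by
    intro i hi
    simp only [hu]
    rw [norm_smul, norm_inv, norm_norm, inv_mul_cancel₀ (hn i hi).ne']
  have hang : ∑ i ∈ Finset.range m, angle (u i) (u (i + 1)) < π := by
    rw [Finset.sum_congr rfl (g := fun i => angle (e i) (e (i + 1)))]
    · exact hA
    · intro i hi
      rw [Finset.mem_range] at hi
      simp only [hu]
      rw [angle_smul_left_of_pos _ _ (inv_pos.2 (hn i hi.le)),
        angle_smul_right_of_pos _ _ (inv_pos.2 (hn (i + 1) hi))]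
  have hue : ∀ i ≤ m, ∀ a : ℝ, (a * ‖e i‖) • u i = a • e i := by
    intro i hi a
    simp only [hu]
    rw [smul_smul, mul_assoc, mul_inv_cancel₀ (hn i hi).ne', mul_one]
  obtain ⟨r, hr, H⟩ := pushOff_unit z hm u hu1 hang (mul_pos hs (hn 0 (Nat.zero_le m)))
    (mul_pos ht (hn m le_rfl)) (mul_pos hε hρ0)
  refine ⟨fun i => r i / ‖e i‖, fun i hi => ?_, fun x hx0 hxm hx => ?_⟩
  · refine ⟨div_pos (hr i hi).1 (hn i hi), ?_⟩
    rw [div_lt_iff₀ (hn i hi)]
    exact lt_of_lt_of_le (hr i hi).2 (mul_le_mul_of_nonneg_left (hρ i hi) hε.le)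
  · refine H x ?_ ?_ ?_
    · rw [hue 0 (Nat.zero_le m), hx0]
    · rw [hue m le_rfl, hxm]
    · intro i h0 h1
      rw [hx i h0 h1, ← hue i h1.le, div_mul_cancel₀ _ (hn i h1.le).ne']

/-- The degenerate fan: both neighbours on the same ray from `z`. -/
theorem pushOff_zero (z e : E) (he : e ≠ 0) {s t : ℝ} (hs : 0 < s) (ht : 0 < t) :
    dist (z + s • e) (z + t • e) < dist (z + s • e) z + dist z (z + t • e) := by
  have hn : 0 < ‖e‖ := norm_pos_iff.2 he
  rw [dist_add_left, dist_eq_norm, ← sub_smul, norm_smul, dist_eq_norm, add_sub_cancel_left,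
    dist_comm z, dist_eq_norm, add_sub_cancel_left, norm_smul, norm_smul,
    Real.norm_of_nonneg hs.le, Real.norm_of_nonneg ht.le, Real.norm_eq_abs, ← add_mul]
  refine mul_lt_mul_of_pos_right ?_ hn
  rw [abs_lt]
  constructor <;> linarith

/-! ### Exchange of two segments -/

theorem twoOpt_le {a b c d x : E} (h1 : dist a x + dist x b = dist a b)
    (h2 : dist c x + dist x d = dist c d) : dist a c + dist b d ≤ dist a b + dist c d := by
  have h3 := dist_triangle a x c
  have h4 := dist_triangle b x d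
  rw [dist_comm x c] at h3
  rw [dist_comm b x] at h4
  linarith

/-- Two segments `ab`, `cd` with a common point `x`: replacing them by `ac`, `bd` is strictly shorter, unless
`x` lies on both new segments. -/
theorem twoOpt {a b c d x : E} (h1 : dist a x + dist x b = dist a b)
    (h2 : dist c x + dist x d = dist c d)
    (h3 : dist a c ≠ dist a x + dist x c ∨ dist b d ≠ dist b x + dist x d) :
    dist a c + dist b d < dist a b + dist c d := by
  have h4 := dist_triangle a x c
  have h5 := dist_triangle b x d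
  have e1 := dist_comm x c
  have e2 := dist_comm b x
  rcases h3 with h3 | h3
  · have := lt_of_le_of_ne h4 h3
    linarith
  · have := lt_of_le_of_ne h5 h3
    linarith

/-- Crossing segments (common point in the open segments, not all on a line). -/
theorem twoOpt_cross {a b c d x : E} (h1 : x ∈ segment ℝ a b) (h2 : x ∈ segment ℝ c d)
    (h3 : x ∉ segment ℝ a c ∨ x ∉ segment ℝ b d) :
    dist a c + dist b d < dist a b + dist c d := by
  refine twoOpt (dist_add_dist_of_mem_segment h1) (dist_add_dist_of_mem_segment h2) ?_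
  rcases h3 with h3 | h3
  · left
    intro h
    exact h3 (dist_add_dist_eq_iff.1 h.symm |>.mem_segment)
  · right
    intro h
    exact h3 (dist_add_dist_eq_iff.1 h.symm |>.mem_segment)

/-! ### Sliding a segment that cuts off a corner -/

open EuclideanGeometry in
/-- Projection formula: `|XY| = |OX| cos α + |OY| cos β`. -/
theorem corner_dist {O X Y : E} (hXY : X ≠ Y) :
    dist X Y = dist O X * Real.cos (∠ O X Y) + dist O Y * Real.cos (∠ O Y X) := by
  have h1 : inner ℝ (O - X) (Y - X) = dist O X * dist X Y * Real.cos (∠ O X Y) := by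
    have := cos_angle_mul_norm_mul_norm (O - X) (Y - X)
    rw [← this, dist_comm X Y, dist_eq_norm, dist_eq_norm]
    simp only [EuclideanGeometry.angle, vsub_eq_sub]
    ring
  have h2 : inner ℝ (O - Y) (X - Y) = dist O Y * dist X Y * Real.cos (∠ O Y X) := by
    have := cos_angle_mul_norm_mul_norm (O - Y) (X - Y)
    rw [← this, dist_eq_norm, dist_eq_norm]
    simp only [EuclideanGeometry.angle, vsub_eq_sub]
    ring
  have h3 : inner ℝ (O - X) (Y - X) + inner ℝ (O - Y) (X - Y) = dist X Y * dist X Y := by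
    have h4 : inner ℝ (O - Y) (X - Y) = - inner ℝ (O - Y) (Y - X) := by
      rw [← inner_neg_right, neg_sub]
    rw [h4, ← sub_eq_add_neg, ← inner_sub_left, show O - X - (O - Y) = Y - X by abel,
      real_inner_self_eq_norm_mul_norm, dist_comm X Y, dist_eq_norm]
  have h5 : dist X Y ≠ 0 := dist_ne_zero.2 hXY
  have h6 : dist X Y * dist X Y
      = dist X Y * (dist O X * Real.cos (∠ O X Y) + dist O Y * Real.cos (∠ O Y X)) := by
    rw [← h3, h1, h2]
    ring
  exact mul_left_cancel₀ h5 h6

open EuclideanGeometry in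
/-- Law of sines: both sides are the distance of `O` from the line `XY`. -/
theorem corner_mul_sin {O X Y : E} :
    dist O X * Real.sin (∠ O X Y) = dist O Y * Real.sin (∠ O Y X) := by
  have h := EuclideanGeometry.law_sin X Y O
  have h1 : ∠ O Y X = ∠ X Y O := EuclideanGeometry.angle_comm _ _ _
  rw [h1, mul_comm (dist O Y), dist_comm O Y, h, mul_comm]

open EuclideanGeometry in
/-- **Slide.** `X'`, `Y'` are obtained by moving `X`, `Y` away from the corner `O` (towards it if `t < 0`)
by `t / sin α`, `t / sin β`; the segment stays parallel and its length changes by `t (cot α + cot β)`. -/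
theorem slide {O X Y : E} (hXY : X ≠ Y) (hα : 0 < Real.sin (∠ O X Y)) (hβ : 0 < Real.sin (∠ O Y X))
    (hX : X ≠ O) (hY : Y ≠ O) {t : ℝ} (ht : 0 ≤ dist O X * Real.sin (∠ O X Y) + t) :
    dist (X + (t / Real.sin (∠ O X Y) / dist O X) • (X - O))
        (Y + (t / Real.sin (∠ O Y X) / dist O Y) • (Y - O))
      = dist X Y + t * (Real.cos (∠ O X Y) / Real.sin (∠ O X Y)
          + Real.cos (∠ O Y X) / Real.sin (∠ O Y X)) := by
  have hOX : 0 < dist O X := dist_pos.2 hX.symm
  have hOY : 0 < dist O Y := dist_pos.2 hY.symm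
  set α := ∠ O X Y with hαd
  set β := ∠ O Y X with hβd
  have hh : dist O X * Real.sin α = dist O Y * Real.sin β := corner_mul_sin
  have hd : dist X Y = dist O X * Real.cos α + dist O Y * Real.cos β := corner_dist hXY
  set h := dist O X * Real.sin α with hhd
  have hpos : 0 < h := mul_pos hOX hα
  have e1 : t / Real.sin α / dist O X = t / h := by
    rw [div_div, mul_comm (Real.sin α)]
  have e2 : t / Real.sin β / dist O Y = t / h := by
    rw [div_div, mul_comm (Real.sin β), ← hh]
  rw [e1, e2]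
  have e3 : X + (t / h) • (X - O) - (Y + (t / h) • (Y - O)) = (1 + t / h) • (X - Y) := by
    module
  rw [dist_eq_norm, e3, norm_smul, ← dist_eq_norm, Real.norm_of_nonneg (by
    have : 1 + t / h = (h + t) / h := by field_simp
    rw [this]
    positivity)]
  have e4 : dist X Y = h * (Real.cos α / Real.sin α + Real.cos β / Real.sin β) := by
    rw [hd, mul_add]
    congr 1
    · rw [hhd]
      field_simp
    · rw [hh]
      field_simp
  rw [add_mul, one_mul]
  congr 1
  rw [e4]
  field_simp

end Pool.Agent.QGeo
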